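import Pool.Agent.H17.Inh.Paths4

/-!
# A criterion from the adjacency matrix plus the identity modulo two

`IsExt`, `Closable`, `Avoidable`, `Inherent`: as in the problem file (file
`Pool/Agent/H17/Inh/Defs.lean`); copies are embeddings. `nbc H K w` is the number of vertices of the
closed neighbourhood of `w` (the vertex `w` and its neighbours) in the set `K`, and `ed H K` is the
number of edges inside `K`. Let `s` be the only vertex whose closed neighbourhood has an odd number
of vertices in `S`, and `t` the only one whose closed neighbourhood has an odd number of vertices in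
`T`, and let `t` be outside `S`. Then `(H, s, t)` is not inherent if `s` is in `S`, or if `t` is in
`T`. If every nonempty set `K` meets some closed neighbourhood in an odd number of vertices (the
adjacency matrix plus the identity is nonsingular modulo 2), it is also not inherent if the numbers
`|S| + 2 e(S)` and `|T| + 2 e(T)` are congruent modulo 4.
-/

namespace Pool.Agent.Results.MP_031144_lc.ClosedParityCriterion

open Pool.Agent.H17.Inh SimpleGraph

/-- a vertex with a dual set is in no even set -/
theorem even_notMemC {n : ℕ} {H : SimpleGraph (Fin n)} {t : Fin n} {T : Finset (Fin n)}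
    (hT : ∀ w, Odd (nbc H T w) ↔ w = t) (K : Finset (Fin n)) (hK : ∀ w, Even (nbc H K w)) :
    t ∉ K := by
  classical
  intro ht
  have h2 : ∀ v, ((nbc H T v : ℕ) : ZMod 2) = if v = t then 1 else 0 := by
    intro v
    by_cases h3 : v = t
    · rw [if_pos h3, odd_iff_cast, hT]
      exact h3
    · rw [if_neg h3]
      exact zmod2_ne_one fun h4 => h3 ((hT v).mp ((odd_iff_cast _).mp h4))
  have h4 : ∑ v ∈ K, ((nbc H T v : ℕ) : ZMod 2) = ∑ v ∈ T, ((nbc H K v : ℕ) : ZMod 2) := by
    simp only [nbc_eq]
    rw [Finset.sum_comm]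
    refine Finset.sum_congr rfl fun v _ => Finset.sum_congr rfl fun w _ => ?_
    by_cases h5 : v = w ∨ H.Adj v w
    · rw [if_pos h5, if_pos (h5.imp Eq.symm SimpleGraph.Adj.symm)]
    · rw [if_neg h5, if_neg fun h6 => h5 (h6.imp Eq.symm SimpleGraph.Adj.symm)]
  rw [Finset.sum_congr rfl fun v _ => h2 v,
    Finset.sum_eq_zero (s := T) fun v _ => (even_iff_cast _).mpr (hK v)] at h4
  simp [ht] at h4

theorem result {n : ℕ} (H : SimpleGraph (Fin n)) (s t : Fin n) (S T : Finset (Fin n))
    (hS : ∀ w, Odd (nbc H S w) ↔ w = s) (hT : ∀ w, Odd (nbc H T w) ↔ w = t) (htS : t ∉ S)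
    (h : s ∈ S ∨ t ∈ T ∨ ((∀ K : Finset (Fin n), K.Nonempty → ∃ w, Odd (nbc H K w)) ∧
      (S.card + 2 * ed H S) % 4 = (T.card + 2 * ed H T) % 4)) : ¬ Inherent H s t := by
  by_cases h1 : s ∈ S
  · exact orth_criterion H s t S hS h1 htS (even_notMemC hT)
  · rcases h with h2 | h2 | ⟨h2, h3⟩
    · exact absurd h2 h1
    · intro hin
      exact orth_criterion H t s T hT h2 (fun h3 => htS ((mem_iff_memC hS hT).mpr h3))
        (even_notMemC hS) (inherent_swap hin)
    · refine z4_criterion H s t S T (fun K hK => ?_) hS hT h1 htS h3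
      by_contra hne
      obtain ⟨w, hw⟩ := h2 K (Finset.nonempty_iff_ne_empty.mpr hne)
      exact absurd (hK w) (Nat.not_even_iff_odd.mpr hw)

end Pool.Agent.Results.MP_031144_lc.ClosedParityCriterion
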