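import Pool.Agent.H17.Inh.Twin

/-!
# A root with a neighbour of degree one

`IsExt`, `Closable`, `Avoidable`, `Inherent`: as in the problem file (file
`Pool/Agent/H17/Inh/Defs.lean`); copies are embeddings. If the root `t` has a neighbour `y ≠ s` of degree one
and no vertex other than `s` has the neighbourhood of `s`, then `(H, s, t)` is not inherent.
-/

namespace Pool.Agent.Results.MP_031144_lc.LeafNeighbour

open Pool.Agent.H17.Inh SimpleGraph

theorem result {n : ℕ} (H : SimpleGraph (Fin n)) (s t y : Fin n) (hys : y ≠ s)
    (hy : ∀ w, H.Adj y w ↔ w = t) (hs : ∀ w, w ≠ s → H.neighborSet w ≠ H.neighborSet s) :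
    ¬ Inherent H s t := by
  refine twin_criterion H s t y hys hy fun w hw => ?_
  by_contra hcon
  push Not at hcon
  exact hs w hw (Set.ext hcon)

end Pool.Agent.Results.MP_031144_lc.LeafNeighbour
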