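import Pool.Agent.H17.Inh.Paths4

/-!
# A criterion from the adjacency matrix modulo two

`IsExt`, `Closable`, `Avoidable`, `Inherent`: as in the problem file (file
`Pool/Agent/H17/Inh/Defs.lean`); copies are embeddings. `nb H K w` is the number of neighbours of `w` in the
set `K`, and `ed H K` is the number of edges inside `K`. Let `s` be the only vertex with an odd number of
neighbours in `S`, and `t` the only vertex with an odd number of neighbours in `T`. Then `(H, s, t)` is not
inherent if `t` is not in `S`. If every nonempty set `K` has a vertex with an odd number of neighbours in `K`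
(the adjacency matrix is nonsingular modulo 2), it is also not inherent if `S` and `T` have different
values of the quadratic form (number of vertices plus number of edges, modulo 2).
-/

namespace Pool.Agent.Results.MP_031144_lc.ParityCriterion

open Pool.Agent.H17.Inh SimpleGraph

theorem result {n : ℕ} (H : SimpleGraph (Fin n)) (s t : Fin n) (S T : Finset (Fin n))
    (hS : ∀ w, Odd (nb H S w) ↔ w = s) (hT : ∀ w, Odd (nb H T w) ↔ w = t)
    (h : t ∉ S ∨ ((∀ K : Finset (Fin n), K.Nonempty → ∃ w, Odd (nb H K w)) ∧
      (S.card + ed H S) % 2 ≠ (T.card + ed H T) % 2)) : ¬ Inherent H s t := by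
  by_cases hst : t ∈ S
  · obtain ⟨h1, h2⟩ := h.resolve_left (not_not.mpr hst)
    refine plane_criterion H s t S T (fun K hK => ?_) hS hT hst h2
    by_contra hne
    obtain ⟨w, hw⟩ := h1 K (Finset.nonempty_iff_ne_empty.mpr hne)
    exact absurd (hK w) (Nat.not_even_iff_odd.mpr hw)
  · exact alt_criterion H s t S hS hst (even_notMem hT)

end Pool.Agent.Results.MP_031144_lc.ParityCriterion
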