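import Pool.Agent.H17.Inh.Paths4

/-!
# Paths rooted at an end and at an inner vertex

`IsExt`, `Closable`, `Avoidable`, `Inherent`: as in the problem file (file
`Pool/Agent/H17/Inh/Defs.lean`); copies are embeddings. The path `v_0, ..., v_l` with the roots `v_0` and
`v_k` is not inherent if `l` is odd and `k` is not congruent to `l` modulo 4, if `l` is divisible by 4 and
`k` is odd, if `l` is divisible by 3 and `k` is congruent to 1 modulo 3, or if `l` is congruent to 2 modulo 3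
and `k` is divisible by 3.
-/

namespace Pool.Agent.Results.MP_031144_lc.PathCongruences

open Pool.Agent.H17.Inh SimpleGraph

theorem result (l k : ℕ) (hk : k ≤ l)
    (h : (l % 2 = 1 ∧ k % 4 ≠ l % 4) ∨ (l % 4 = 0 ∧ k % 2 = 1) ∨ (l % 3 = 0 ∧ k % 3 = 1) ∨
      (l % 3 = 2 ∧ k % 3 = 0)) :
    ¬ Inherent (pathGraph (l + 1)) (⟨0, Nat.succ_pos l⟩ : Fin (l + 1))
      ⟨k, Nat.lt_succ_of_le hk⟩ := by
  rcases h with ⟨h1, h2⟩ | ⟨h1, h2⟩ | ⟨h1, h2⟩ | ⟨h1, h2⟩
  · by_cases h3 : k % 2 = 0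
    · exact path_odd_even l k h1 h3 hk
    · exact path_plane l k h1 (by omega) hk (by omega)
  · obtain ⟨m, rfl⟩ : ∃ m, l = 4 * m := ⟨l / 4, by omega⟩
    exact path_four_odd m k h2 hk
  · obtain ⟨m, rfl⟩ : ∃ m, l = 3 * m := ⟨l / 3, by omega⟩
    exact path_three m k h2 hk
  · obtain ⟨m, rfl⟩ : ∃ m, l = 3 * m + 2 := ⟨l / 3, by omega⟩
    obtain ⟨j, rfl⟩ : ∃ j, k = 3 * j := ⟨k / 3, by omega⟩
    exact path_two_zero m j (by omega)

end Pool.Agent.Results.MP_031144_lc.PathCongruences
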